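import Pool.Agent.Y524E.Defs

/-! Isomorphisms of group trisections, the obstruction and the final assembly. -/

namespace Pool.Agent.Y524E

namespace Trisection

/-- `T` is not a stabilization of anything, up to arbitrary isomorphisms of the closed surface
groups and arbitrary relabelling of the three handlebodies. -/
def NotStab (T : Trisection) : Prop :=
  ∀ (U : Trisection) (σ : Equiv.Perm (Fin 3))
    (e : (Fg U.stab.g ⧸ Subgroup.normalClosure {bd U.stab.g}) ≃*
      (Fg T.g ⧸ Subgroup.normalClosure {bd T.g})),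
    ¬ ∀ i (x : Fg U.stab.g) (y : Fg T.g), e (x : Fg U.stab.g ⧸ Subgroup.normalClosure {bd U.stab.g}) = (y : Fg T.g ⧸ Subgroup.normalClosure {bd T.g}) →
      (U.stab.φ i x = 1 ↔ T.φ (σ i) y = 1)

theorem weak_of (T : Trisection) (h : T.NotStab) (U : Trisection) : ¬ U.stab.WeakIso T := by
  rintro ⟨σ, e, he⟩
  exact h U σ e fun i x y hxy => he i x y hxy

theorem Iso.refl (T : Trisection) : Iso T T :=
  ⟨MulEquiv.refl _, rfl, fun _ _ => Iff.rfl⟩

theorem Iso.symm {T T' : Trisection} (h : Iso T T') : Iso T' T := by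
  obtain ⟨f, hf, hk⟩ := h
  refine ⟨f.symm, by rw [← hf, MulEquiv.symm_apply_apply], fun i x => ?_⟩
  rw [← hk i (f.symm x), MulEquiv.apply_symm_apply]

theorem Iso.trans {T T' T'' : Trisection} (h : Iso T T') (h' : Iso T' T'') : Iso T T'' := by
  obtain ⟨f, hf, hk⟩ := h
  obtain ⟨f', hf', hk'⟩ := h'
  refine ⟨f.trans f', by simp [hf, hf'], fun i x => ?_⟩
  rw [MulEquiv.trans_apply, hk', hk]

/-- The extension of a homomorphism by the identity on the new letters. -/
def extH {g g' : ℕ} (f : Fg g →* Fg g') : Fg (g + 3) →* Fg (g' + 3) :=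
  FreeGroup.lift (fun x : Fin (g + 3) × Bool =>
    Fin.addCases (fun a => mm g' (f (FreeGroup.of (a, x.2))))
      (fun r => FreeGroup.of (Fin.natAdd g' r, x.2)) x.1)

theorem extH_old {g g' : ℕ} (f : Fg g →* Fg g') (a : Fin g) (b : Bool) :
    extH f (FreeGroup.of (Fin.castAdd 3 a, b)) = mm g' (f (FreeGroup.of (a, b))) := by
  simp only [extH, FreeGroup.lift_apply_of, Fin.addCases_left]

theorem extH_new {g g' : ℕ} (f : Fg g →* Fg g') (r : Fin 3) (b : Bool) :
    extH f (FreeGroup.of (Fin.natAdd g r, b)) = FreeGroup.of (Fin.natAdd g' r, b) := by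
  simp only [extH, FreeGroup.lift_apply_of, Fin.addCases_right]

theorem extH_mm {g g' : ℕ} (f : Fg g →* Fg g') (x : Fg g) :
    extH f (mm g x) = mm g' (f x) := by
  have : (extH f).comp (mm g) = (mm g').comp f := by
    apply FreeGroup.ext_hom
    rintro ⟨a, b⟩
    simp only [MonoidHom.comp_apply, mm_of]
    exact extH_old f a b
  have := DFunLike.congr_fun this x
  simpa using this

theorem extH_cc {g g' : ℕ} (f : Fg g →* Fg g') : extH f (cc g) = cc g' := by
  unfold cc
  rw [map_list_prod, List.map_ofFn]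
  congr 1
  congr 1
  funext r
  simp only [Function.comp, map_mul, map_inv, extH_new]

theorem extH_comp {g g' : ℕ} (f : Fg g →* Fg g') (f' : Fg g' →* Fg g)
    (h : ∀ x, f' (f x) = x) (x : Fg (g + 3)) : extH f' (extH f x) = x := by
  have : (extH f').comp (extH f) = MonoidHom.id _ := by
    apply FreeGroup.ext_hom
    rintro ⟨a, b⟩
    rw [MonoidHom.comp_apply, MonoidHom.id_apply]
    refine Fin.addCases (fun c => ?_) (fun u => ?_) a
    · rw [extH_old, extH_mm, h, mm_of]
    · rw [extH_new, extH_new]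
  have := DFunLike.congr_fun this x
  simpa using this

/-- The extension of an isomorphism. -/
def extE {g g' : ℕ} (f : Fg g ≃* Fg g') : Fg (g + 3) ≃* Fg (g' + 3) where
  toFun := extH f.toMonoidHom
  invFun := extH f.symm.toMonoidHom
  left_inv := extH_comp _ _ (fun x => f.symm_apply_apply x)
  right_inv := extH_comp _ _ (fun x => f.apply_symm_apply x)
  map_mul' := map_mul _

theorem extH_ker {T T' : Trisection} (i : Fin 3) (f : Fg T.g →* Fg T'.g)
    (hf : ∀ x, T.φ i x = 1 → T'.φ i (f x) = 1) (x : Fg (T.g + 3))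
    (hx : FreeGroup.lift (T.stabFun i) x = 1) :
    FreeGroup.lift (T'.stabFun i) (extH f x) = 1 := by
  obtain ⟨η, hη⟩ := exists_factor (T.φ i) ((T'.φ i).comp f) (T.surj i) (by
    intro y hy
    exact hf y hy)
  let ηs : FreeGroup (Fin (T.g + 3)) →* FreeGroup (Fin (T'.g + 3)) := FreeGroup.lift
    (fun a : Fin (T.g + 3) =>
      Fin.addCases (fun b => FreeGroup.map (Fin.castAdd 3) (η (FreeGroup.of b)))
        (fun r => FreeGroup.of (Fin.natAdd T'.g r)) a)
  have hηm : ∀ y, ηs (FreeGroup.map (Fin.castAdd 3) y) = FreeGroup.map (Fin.castAdd 3) (η y) := by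
    intro y
    have : ηs.comp (FreeGroup.map (Fin.castAdd 3)) = (FreeGroup.map (Fin.castAdd 3)).comp η := by
      apply FreeGroup.ext_hom
      intro a
      simp only [MonoidHom.comp_apply, FreeGroup.map.of, ηs, FreeGroup.lift_apply_of,
        Fin.addCases_left]
    have := DFunLike.congr_fun this y
    simpa using this
  have hcomp : (FreeGroup.lift (T'.stabFun i)).comp (extH f) =
      ηs.comp (FreeGroup.lift (T.stabFun i)) := by
    apply FreeGroup.ext_hom
    rintro ⟨a, b⟩
    rw [MonoidHom.comp_apply, MonoidHom.comp_apply]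
    refine Fin.addCases (fun c => ?_) (fun u => ?_) a
    · rw [extH_old, lift_mm, lift_stab_old, hηm, hη, MonoidHom.comp_apply]
    · rw [extH_new, lift_stab_new, lift_stab_new]
      split_ifs
      · exact (map_one ηs).symm
      · simp only [ηs, FreeGroup.lift_apply_of, Fin.addCases_right]
  have := DFunLike.congr_fun hcomp x
  simp only [MonoidHom.comp_apply] at this
  rw [this, hx, map_one]

/-- stabilization respects isomorphism (extend `f` by the identity on the new letters). -/
theorem Iso.stab {T T' : Trisection} (h : Iso T T') : Iso T.stab T'.stab := by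
  obtain ⟨f, hf, hk⟩ := h
  refine ⟨extE f, ?_, ?_⟩
  · show extH f.toMonoidHom (bd (T.g + 3)) = bd (T'.g + 3)
    rw [bd_add, map_mul, extH_mm, extH_cc, bd_add]
    congr 2
  · intro i x
    constructor
    · intro hx
      have h1 := extH_ker (T := T') (T' := T) i f.symm.toMonoidHom (fun y hy => by
        show T.φ i (f.symm y) = 1
        rw [← hk i (f.symm y), MulEquiv.apply_symm_apply]
        exact hy) (extE f x) hx
      have h2 : extH f.symm.toMonoidHom (extE f x) = x := (extE f).symm_apply_apply x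
      rw [h2] at h1
      exact h1
    · intro hx
      exact extH_ker (T := T) (T' := T') i f.toMonoidHom (fun y hy => by
        show T'.φ i (f y) = 1
        rw [hk i y]
        exact hy) x hx

/-- The rank of a free group is an invariant. -/
theorem rank_eq {α β : Type} [Fintype α] [Fintype β] (e : FreeGroup α ≃* FreeGroup β) :
    Fintype.card α = Fintype.card β := by
  have e1 : (α → Multiplicative (ZMod 2)) ≃ (β → Multiplicative (ZMod 2)) :=
    (FreeGroup.lift).trans ((e.monoidHomCongrLeftEquiv).trans (FreeGroup.lift).symm)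
  have h := Nat.card_congr e1
  rw [Nat.card_fun, Nat.card_fun] at h
  have h2 : Nat.card (Multiplicative (ZMod 2)) = 2 := by
    rw [Nat.card_eq_fintype_card]
    rfl
  rw [h2] at h
  have := Nat.pow_right_injective le_rfl h
  simpa [Nat.card_eq_fintype_card] using this

theorem bd_ker (T : Trisection) (i : Fin 3) :
    Subgroup.normalClosure {bd T.g} ≤ (T.φ i).ker := by
  apply Subgroup.normalClosure_le_normal
  intro x hx
  rw [Set.mem_singleton_iff] at hx
  subst hx
  exact T.closed i

/-- The obstruction, for an arbitrary trisection `V` in place of a stabilization. -/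
theorem obstruction_aux (T V : Trisection) {M : Type} [Group M] (Λ : Fg T.g →* FreeGroup (Fin 4))
    (hs : Function.Surjective Λ) (hk : Λ.ker = (T.φ 0).ker ⊔ (T.φ 1).ker)
    (μ : FreeGroup (Fin 4) →* M) (hμ : ∀ x, T.φ 2 x = 1 → μ (Λ x) = 1)
    (hirr : ∀ f : FreeGroup (Fin 4) ≃* FreeGroup (Fin 4), μ (f (FreeGroup.of 3)) ≠ 1)
    (σ : Equiv.Perm (Fin 3))
    (e : (Fg V.g ⧸ Subgroup.normalClosure {bd V.g}) ≃*
      (Fg T.g ⧸ Subgroup.normalClosure {bd T.g}))
    (h : ∀ i (x : Fg V.g) (y : Fg T.g), e (x : Fg V.g ⧸ Subgroup.normalClosure {bd V.g}) =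
      (y : Fg T.g ⧸ Subgroup.normalClosure {bd T.g}) → (V.φ i x = 1 ↔ T.φ (σ i) y = 1))
    (i j r : Fin 3) (hi : σ i = 0) (hj : σ j = 1) (hr : σ r = 2)
    {k : ℕ} (L : Fg V.g →* FreeGroup (Fin (k + 1))) (hLs : Function.Surjective L)
    (hLk : L.ker = (V.φ i).ker ⊔ (V.φ j).ker) (p : Fg V.g) (hp : V.φ r p = 1)
    (hLp : L p = FreeGroup.of (Fin.last k)) : False := by
  -- the map `β`
  have hbd : Subgroup.normalClosure {bd T.g} ≤ Λ.ker := by
    rw [hk]
    exact (bd_ker T 0).trans le_sup_left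
  let Λ' : (Fg T.g ⧸ Subgroup.normalClosure {bd T.g}) →* FreeGroup (Fin 4) :=
    QuotientGroup.lift _ Λ hbd
  let β : Fg V.g →* FreeGroup (Fin 4) :=
    (Λ'.comp e.toMonoidHom).comp (QuotientGroup.mk' (Subgroup.normalClosure {bd V.g}))
  have hβ : ∀ (x : Fg V.g) (y : Fg T.g),
      e (x : Fg V.g ⧸ Subgroup.normalClosure {bd V.g}) =
        (y : Fg T.g ⧸ Subgroup.normalClosure {bd T.g}) → β x = Λ y := by
    intro x y hxy
    show Λ' (e (x : Fg V.g ⧸ Subgroup.normalClosure {bd V.g})) = Λ y
    rw [hxy]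
    rfl
  have hβs : Function.Surjective β := by
    intro z
    obtain ⟨y, rfl⟩ := hs z
    obtain ⟨x, hx⟩ := QuotientGroup.mk_surjective
      (e.symm (y : Fg T.g ⧸ Subgroup.normalClosure {bd T.g}))
    refine ⟨x, hβ x y ?_⟩
    rw [hx, MulEquiv.apply_symm_apply]
  have hpick : ∀ x : Fg V.g, ∃ y : Fg T.g,
      e (x : Fg V.g ⧸ Subgroup.normalClosure {bd V.g}) =
        (y : Fg T.g ⧸ Subgroup.normalClosure {bd T.g}) := by
    intro x
    obtain ⟨y, hy⟩ := QuotientGroup.mk_surjective
      (e (x : Fg V.g ⧸ Subgroup.normalClosure {bd V.g}))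
    exact ⟨y, hy.symm⟩
  have hpick' : ∀ y : Fg T.g, ∃ x : Fg V.g,
      e (x : Fg V.g ⧸ Subgroup.normalClosure {bd V.g}) =
        (y : Fg T.g ⧸ Subgroup.normalClosure {bd T.g}) := by
    intro y
    obtain ⟨x, hx⟩ := QuotientGroup.mk_surjective
      (e.symm (y : Fg T.g ⧸ Subgroup.normalClosure {bd T.g}))
    exact ⟨x, by rw [hx, MulEquiv.apply_symm_apply]⟩
  have hker : L.ker = β.ker := by
    apply le_antisymm
    · rw [hLk, sup_le_iff]
      constructor
      · intro x hx
        obtain ⟨y, hy⟩ := hpick x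
        have h1 := (h i x y hy).1 hx
        rw [hi] at h1
        rw [MonoidHom.mem_ker, hβ x y hy, ← MonoidHom.mem_ker, hk]
        exact Subgroup.mem_sup_left h1
      · intro x hx
        obtain ⟨y, hy⟩ := hpick x
        have h1 := (h j x y hy).1 hx
        rw [hj] at h1
        rw [MonoidHom.mem_ker, hβ x y hy, ← MonoidHom.mem_ker, hk]
        exact Subgroup.mem_sup_right h1
    · intro x hx
      obtain ⟨y, hy⟩ := hpick x
      rw [MonoidHom.mem_ker, hβ x y hy, ← MonoidHom.mem_ker, hk] at hx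
      rw [Subgroup.mem_sup_of_normal_right] at hx
      obtain ⟨c, hc, d, hd, hcd⟩ := hx
      obtain ⟨xc, hxc⟩ := hpick' c
      obtain ⟨xd, hxd⟩ := hpick' d
      have h1 : xc ∈ (V.φ i).ker := by
        apply (h i xc c hxc).2
        rw [hi]
        exact hc
      have h2 : xd ∈ (V.φ j).ker := by
        apply (h j xd d hxd).2
        rw [hj]
        exact hd
      have h3 : ((xc * xd : Fg V.g) : Fg V.g ⧸ Subgroup.normalClosure {bd V.g})
          = (x : Fg V.g ⧸ Subgroup.normalClosure {bd V.g}) := by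
        apply e.injective
        rw [hy, ← hcd, QuotientGroup.mk_mul, map_mul, hxc, hxd]
        rfl
      have h4 : (xc * xd)⁻¹ * x ∈ Subgroup.normalClosure {bd V.g} :=
        QuotientGroup.eq.1 h3
      have h5 : (xc * xd)⁻¹ * x ∈ (V.φ i).ker := bd_ker V i h4
      rw [hLk]
      have h6 : x = xc * xd * ((xc * xd)⁻¹ * x) := by group
      rw [h6]
      exact mul_mem (mul_mem (Subgroup.mem_sup_left h1) (Subgroup.mem_sup_right h2))
        (Subgroup.mem_sup_left h5)
  let E : FreeGroup (Fin (k + 1)) ≃* FreeGroup (Fin 4) :=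
    ((QuotientGroup.quotientKerEquivOfSurjective L hLs).symm.trans
      (QuotientGroup.quotientMulEquivOfEq hker)).trans
      (QuotientGroup.quotientKerEquivOfSurjective β hβs)
  have hE : ∀ x, E (L x) = β x := by
    intro x
    have h1 : (QuotientGroup.quotientKerEquivOfSurjective L hLs).symm (L x) =
        (x : Fg V.g ⧸ L.ker) := by
      rw [MulEquiv.symm_apply_eq]
      rfl
    simp only [E, MulEquiv.trans_apply]
    rw [h1]
    rfl
  have hk4 : k + 1 = 4 := by
    have := rank_eq E
    simpa using this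
  let c : FreeGroup (Fin 4) ≃* FreeGroup (Fin (k + 1)) :=
    FreeGroup.freeGroupCongr (finCongr hk4.symm)
  have hc : c (FreeGroup.of 3) = FreeGroup.of (Fin.last k) := by
    simp only [c, FreeGroup.freeGroupCongr_apply, FreeGroup.map.of]
    congr 1
    apply Fin.ext
    simp
    omega
  apply hirr (c.trans E)
  rw [MulEquiv.trans_apply, hc, ← hLp, hE]
  obtain ⟨y, hy⟩ := hpick p
  rw [hβ _ y hy]
  apply hμ
  have h1 := (h r _ y hy).1 hp
  rw [hr] at h1
  exact h1

/-- the obstruction -/
theorem notStab_of (T : Trisection) {M : Type} [Group M] (Λ : Fg T.g →* FreeGroup (Fin 4))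
    (hs : Function.Surjective Λ) (hk : Λ.ker = (T.φ 0).ker ⊔ (T.φ 1).ker)
    (μ : FreeGroup (Fin 4) →* M) (hμ : ∀ x, T.φ 2 x = 1 → μ (Λ x) = 1)
    (hirr : ∀ f : FreeGroup (Fin 4) ≃* FreeGroup (Fin 4), μ (f (FreeGroup.of 3)) ≠ 1) :
    NotStab T := by
  intro U σ e h
  obtain ⟨i, j, r, hi, hj, hr, hij, hir, hjr⟩ : ∃ i j r : Fin 3, σ i = 0 ∧ σ j = 1 ∧ σ r = 2 ∧
      i ≠ j ∧ i ≠ r ∧ j ≠ r := by
    refine ⟨σ.symm 0, σ.symm 1, σ.symm 2, by simp, by simp, by simp, ?_, ?_, ?_⟩ <;>
    · intro h
      have := σ.symm.injective h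
      revert this
      decide
  obtain ⟨L, hLs, hLk, hLl⟩ := U.stab_pair i j r hij hir hjr
  exact obstruction_aux T U.stab Λ hs hk μ hμ hirr σ e h i j r hi hj hr L hLs hLk
    (FreeGroup.of (Fin.natAdd U.g r, false))
    (by
      show FreeGroup.lift (U.stabFun r) (FreeGroup.of (Fin.natAdd U.g r, false)) = 1
      rw [lift_stab_new, if_pos (by simp)]) hLl

/-- final assembly -/
theorem final (T₀ T : Trisection) (h : Iso T₀.stab.stab T.stab) (hg : T₀.g < T.g)
    (hT : NotStab T) :
    ¬ T.Minimal ∧ ∀ (M : Trisection) (n : ℕ), M.Minimal → ¬ Iso (stab^[n] M) T := by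
  constructor
  · intro hm
    have := hm T₀ ⟨1, 2, h.symm⟩
    omega
  · intro M n hM hiso
    rcases n with _ | m
    · have h0 : Iso M T := hiso
      have h1 : M.g ≤ T₀.g := hM T₀ ⟨1, 2, h0.stab.trans h.symm⟩
      obtain ⟨f, -, -⟩ := h0
      have h2 := rank_eq f
      simp only [Fintype.card_prod, Fintype.card_fin, Fintype.card_bool] at h2
      omega
    · rw [Function.iterate_succ_apply'] at hiso
      obtain ⟨U, hU⟩ : ∃ U, U = stab^[m] M := ⟨_, rfl⟩
      rw [← hU] at hiso
      obtain ⟨f, hf, hk⟩ := hiso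
      have hmap : (Subgroup.normalClosure {bd U.stab.g}).map f.toMonoidHom =
          Subgroup.normalClosure {bd T.g} := by
        rw [Subgroup.map_normalClosure _ _ f.surjective]
        congr 1
        rw [Set.image_singleton]
        congr 1
      let e : (Fg U.stab.g ⧸ Subgroup.normalClosure {bd U.stab.g}) ≃*
          (Fg T.g ⧸ Subgroup.normalClosure {bd T.g}) :=
        QuotientGroup.congr _ _ f hmap
      refine hT U 1 e ?_
      intro i x y hxy
      have h1 : ((f x : Fg T.g) : Fg T.g ⧸ Subgroup.normalClosure {bd T.g}) =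
          (y : Fg T.g ⧸ Subgroup.normalClosure {bd T.g}) := by
        rw [← hxy]
        rfl
      have h2 : (f x)⁻¹ * y ∈ (T.φ i).ker := bd_ker T i (QuotientGroup.eq.1 h1)
      rw [MonoidHom.mem_ker, map_mul, map_inv] at h2
      have h3 : T.φ i y = T.φ i (f x) := by
        have := mul_eq_one_iff_inv_eq.1 h2
        rw [inv_inv] at this
        exact this.symm
      rw [Equiv.Perm.one_apply, h3]
      exact (hk i x).symm

end Trisection

end Pool.Agent.Y524E
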