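import Pool.Agent.Y524E.Lemmas

/-! Group trisections: stabilization, isomorphism, minimality. -/

namespace Pool.Agent.Y524E

/-- The fundamental group of the closed oriented surface of genus `g`. -/
def Sg (g : ℕ) : Type := PresentedGroup {bd g}

instance (g : ℕ) : Group (Sg g) := inferInstanceAs (Group (PresentedGroup {bd g}))

/-- The quotient map from the group of the surface with one boundary component. -/
def toSg (g : ℕ) : Fg g →* Sg g := PresentedGroup.mk {bd g}

namespace Trisection

/-- Stabilization: connected sum with the standard genus three trisection of the 4-sphere. -/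
def stab (T : Trisection) : Trisection where
  g := T.g + 3
  k := T.k + 1
  φ := T.stabMap
  surj := T.stab_surj
  closed := T.stab_closed
  sector := T.stab_sector

/-- Orientation-preserving isomorphism of group trisections. -/
def Iso (T T' : Trisection) : Prop :=
  ∃ f : Fg T.g ≃* Fg T'.g, f (bd T.g) = bd T'.g ∧ ∀ i x, T'.φ i (f x) = 1 ↔ T.φ i x = 1

/-- Two group trisections describe the same closed 4-manifold iff they are stably isomorphic. -/
def SameManifold (T T' : Trisection) : Prop := ∃ m n : ℕ, Iso (stab^[m] T) (stab^[n] T')

/-- Minimal genus among all balanced trisections of the same 4-manifold. -/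
def Minimal (T : Trisection) : Prop := ∀ T', SameManifold T T' → T.g ≤ T'.g

/-- `T` and `T'` are isomorphic up to a relabelling of the three handlebodies of `T'`, through an
arbitrary isomorphism of the closed surface groups (no condition on orientations or base points):
it carries the three kernels to the three kernels. -/
def WeakIso (T T' : Trisection) : Prop :=
  ∃ (σ : Equiv.Perm (Fin 3)) (e : Sg T.g ≃* Sg T'.g),
    ∀ i x y, e (toSg T.g x) = toSg T'.g y → (T.φ i x = 1 ↔ T'.φ (σ i) y = 1)

end Trisection

end Pool.Agent.Y524E
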