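import Pool.Agent.Y524E.Base

/-! Lemmas on the stabilization of group trisections. -/

namespace Pool.Agent.Y524E

/-- The inclusion of the surface groups. -/
def mm (g : ℕ) : Fg g →* Fg (g + 3) := FreeGroup.map (fun p => (Fin.castAdd 3 p.1, p.2))

@[simp] theorem mm_of (g : ℕ) (p : Fin g × Bool) :
    mm g (FreeGroup.of p) = FreeGroup.of (Fin.castAdd 3 p.1, p.2) := by
  simp [mm]

/-- The block commutators of the new letters. -/
def cc (g : ℕ) : Fg (g + 3) :=
  (List.ofFn fun r : Fin 3 => FreeGroup.of (Fin.natAdd g r, false) *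
    FreeGroup.of (Fin.natAdd g r, true) *
    (FreeGroup.of (Fin.natAdd g r, false))⁻¹ * (FreeGroup.of (Fin.natAdd g r, true))⁻¹).prod

theorem bd_add (g : ℕ) : bd (g + 3) = mm g (bd g) * cc g := by
  unfold bd cc
  rw [List.ofFn_add, List.prod_append, map_list_prod, List.map_ofFn]
  congr 1

theorem hom_list_prod_one {G H : Type*} [Group G] [Group H] (f : G →* H) {n : ℕ}
    (a : Fin n → G) (h : ∀ i, f (a i) = 1) : f (List.ofFn a).prod = 1 := by
  rw [map_list_prod, List.map_ofFn]
  apply List.prod_eq_one
  intro x hx
  rw [List.mem_ofFn] at hx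
  obtain ⟨i, rfl⟩ := hx
  exact h i

namespace Trisection

variable (T : Trisection)

theorem lift_stab_old (i : Fin 3) (j : Fin T.g) (b : Bool) :
    FreeGroup.lift (T.stabFun i) (FreeGroup.of (Fin.castAdd 3 j, b)) =
      FreeGroup.map (Fin.castAdd 3) (T.φ i (FreeGroup.of (j, b))) := by
  rw [FreeGroup.lift_apply_of]
  simp [stabFun]

theorem lift_stab_new (i : Fin 3) (r : Fin 3) (b : Bool) :
    FreeGroup.lift (T.stabFun i) (FreeGroup.of (Fin.natAdd T.g r, b)) =
      if (b = false ↔ r = i) then 1 else FreeGroup.of (Fin.natAdd T.g r) := by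
  rw [FreeGroup.lift_apply_of]
  simp [stabFun]

theorem lift_comp_mm (i : Fin 3) :
    (FreeGroup.lift (T.stabFun i)).comp (mm T.g) =
      (FreeGroup.map (Fin.castAdd 3)).comp (T.φ i) := by
  apply FreeGroup.ext_hom
  rintro ⟨j, b⟩
  simp only [MonoidHom.comp_apply, mm_of]
  exact T.lift_stab_old i j b

theorem lift_mm (i : Fin 3) (x : Fg T.g) :
    FreeGroup.lift (T.stabFun i) (mm T.g x) = FreeGroup.map (Fin.castAdd 3) (T.φ i x) := by
  have := DFunLike.congr_fun (T.lift_comp_mm i) x
  simpa using this

theorem hom_surj_of_gen {G : Type*} [Group G] {α : Type*} (f : G →* FreeGroup α)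
    (h : ∀ a, ∃ x, f x = FreeGroup.of a) : Function.Surjective f := by
  rw [← MonoidHom.range_eq_top, eq_top_iff, ← FreeGroup.closure_range_of, Subgroup.closure_le]
  rintro _ ⟨a, rfl⟩
  obtain ⟨x, hx⟩ := h a
  exact ⟨x, hx⟩

theorem stab_surj (i : Fin 3) : Function.Surjective (T.stabMap i) := by
  unfold stabMap
  apply hom_surj_of_gen
  intro a
  refine Fin.addCases (fun j => ?_) (fun r => ?_) a
  · obtain ⟨y, hy⟩ := T.surj i (FreeGroup.of j)
    exact ⟨mm T.g y, by rw [lift_mm, hy, FreeGroup.map.of]⟩
  · refine ⟨FreeGroup.of (Fin.natAdd T.g r, decide (r = i)), ?_⟩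
    rw [lift_stab_new, if_neg]
    by_cases h : r = i <;> simp [h]

theorem stab_closed (i : Fin 3) : T.stabMap i (bd (T.g + 3)) = 1 := by
  unfold stabMap
  rw [bd_add, map_mul, lift_mm, T.closed i, map_one, one_mul]
  unfold cc
  apply hom_list_prod_one
  intro r
  simp only [map_mul, map_inv, lift_stab_new]
  by_cases h : r = i <;> simp [h]

/-- factor a homomorphism through a surjective one -/
theorem exists_factor {G H K : Type*} [Group G] [Group H] [Group K] (f : G →* H) (k : G →* K)
    (hf : Function.Surjective f) (h : f.ker ≤ k.ker) : ∃ l : H →* K, ∀ x, l (f x) = k x := by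
  refine ⟨f.liftOfRightInverse (Function.surjInv hf) (Function.rightInverse_surjInv hf)
    ⟨k, h⟩, fun x => ?_⟩
  exact MonoidHom.liftOfRightInverse_comp_apply f _ (Function.rightInverse_surjInv hf) ⟨k, h⟩ x

theorem fin3_cases {i j r : Fin 3} (hij : i ≠ j) (hir : i ≠ r) (hjr : j ≠ r) (t : Fin 3) :
    t = i ∨ t = j ∨ t = r := by
  revert i j r t
  decide

theorem stab_pair (i j r : Fin 3) (hij : i ≠ j) (hir : i ≠ r) (hjr : j ≠ r) :
    ∃ Λ : Fg (T.g + 3) →* FreeGroup (Fin (T.k + 1)), Function.Surjective Λ ∧
      Λ.ker = (FreeGroup.lift (T.stabFun i)).ker ⊔ (FreeGroup.lift (T.stabFun j)).ker ∧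
      Λ (FreeGroup.of (Fin.natAdd T.g r, false)) = FreeGroup.of (Fin.last T.k) := by
  obtain ⟨L, hLs, hLk⟩ := T.sector i j hij
  set Φ : Fin 3 → (Fg (T.g + 3) →* FreeGroup (Fin (T.g + 3))) :=
    fun i => FreeGroup.lift (T.stabFun i) with hΦ
  let Λ : Fg (T.g + 3) →* FreeGroup (Fin (T.k + 1)) := FreeGroup.lift
    (fun x : Fin (T.g + 3) × Bool =>
      Fin.addCases (fun a => FreeGroup.map Fin.castSucc (L (FreeGroup.of (a, x.2))))
        (fun t => if x.2 = false ∧ t = r then FreeGroup.of (Fin.last T.k) else 1) x.1)
  have hΛo : ∀ (a : Fin T.g) (b : Bool), Λ (FreeGroup.of (Fin.castAdd 3 a, b)) =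
      FreeGroup.map Fin.castSucc (L (FreeGroup.of (a, b))) := by
    intro a b
    simp only [Λ, FreeGroup.lift_apply_of, Fin.addCases_left]
  have hΛn : ∀ (t : Fin 3) (b : Bool), Λ (FreeGroup.of (Fin.natAdd T.g t, b)) =
      if b = false ∧ t = r then FreeGroup.of (Fin.last T.k) else 1 := by
    intro t b
    simp only [Λ, FreeGroup.lift_apply_of, Fin.addCases_right]
  have hΛm : ∀ x : Fg T.g, Λ (mm T.g x) = FreeGroup.map Fin.castSucc (L x) := by
    intro x
    have : Λ.comp (mm T.g) = (FreeGroup.map Fin.castSucc).comp L := by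
      apply FreeGroup.ext_hom
      rintro ⟨a, b⟩
      simp only [MonoidHom.comp_apply, mm_of]
      exact hΛo a b
    have := DFunLike.congr_fun this x
    simpa using this
  have hΛl : Λ (FreeGroup.of (Fin.natAdd T.g r, false)) = FreeGroup.of (Fin.last T.k) := by
    rw [hΛn, if_pos ⟨rfl, rfl⟩]
  -- one inclusion
  have hle : ∀ t : Fin 3, t ≠ r → (T.φ t).ker ≤ L.ker → (Φ t).ker ≤ Λ.ker := by
    intro t htr hker
    obtain ⟨ℓ, hℓ⟩ := exists_factor (T.φ t) L (T.surj t) hker
    let ψ : FreeGroup (Fin (T.g + 3)) →* FreeGroup (Fin (T.k + 1)) := FreeGroup.lift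
      (fun x : Fin (T.g + 3) =>
        Fin.addCases (fun a => FreeGroup.map Fin.castSucc (ℓ (FreeGroup.of a)))
          (fun u => if u = r then FreeGroup.of (Fin.last T.k) else 1) x)
    have hψm : ∀ x : FreeGroup (Fin T.g), ψ (FreeGroup.map (Fin.castAdd 3) x) =
        FreeGroup.map Fin.castSucc (ℓ x) := by
      intro x
      have : ψ.comp (FreeGroup.map (Fin.castAdd 3)) = (FreeGroup.map Fin.castSucc).comp ℓ := by
        apply FreeGroup.ext_hom
        intro a
        simp only [MonoidHom.comp_apply, FreeGroup.map.of, ψ, FreeGroup.lift_apply_of,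
          Fin.addCases_left]
      have := DFunLike.congr_fun this x
      simpa using this
    have hψ : ψ.comp (Φ t) = Λ := by
      apply FreeGroup.ext_hom
      rintro ⟨a, b⟩
      rw [MonoidHom.comp_apply]
      refine Fin.addCases (fun j => ?_) (fun u => ?_) a
      · rw [hΛo]
        simp only [hΦ]
        rw [lift_stab_old, hψm, hℓ]
      · rw [hΛn]
        simp only [hΦ]
        rw [lift_stab_new]
        by_cases hu : u = r
        · subst hu
          have hne : ¬ (u = t) := fun h => htr h.symm
          cases b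
          · simp [hne, ψ]
          · simp [hne]
        · have h1 : ψ (FreeGroup.of (Fin.natAdd T.g u)) = 1 := by
            simp [ψ, hu]
          simp only [hu, and_false, if_false]
          split_ifs
          · exact map_one ψ
          · exact h1
    intro x hx
    rw [MonoidHom.mem_ker] at hx ⊢
    rw [← hψ, MonoidHom.comp_apply, hx, map_one]
  refine ⟨Λ, ?_, ?_, hΛl⟩
  · apply hom_surj_of_gen
    intro a
    refine Fin.lastCases ?_ (fun b => ?_) a
    · exact ⟨_, hΛl⟩
    · obtain ⟨y, hy⟩ := hLs (FreeGroup.of b)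
      exact ⟨mm T.g y, by rw [hΛm, hy, FreeGroup.map.of]⟩
  · apply le_antisymm
    · -- build a map back
      set M : Subgroup (Fg (T.g + 3)) := (Φ i).ker ⊔ (Φ j).ker with hM
      have hkill : ∀ t : Fin 3, (t = i ∨ t = j) → ∀ x, Φ t x = 1 →
          QuotientGroup.mk' M x = 1 := by
        intro t ht x hx
        rw [← MonoidHom.mem_ker, QuotientGroup.ker_mk']
        rcases ht with rfl | rfl
        · exact Subgroup.mem_sup_left hx
        · exact Subgroup.mem_sup_right hx
      have h1 : L.ker ≤ ((QuotientGroup.mk' M).comp (mm T.g)).ker := by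
        rw [hLk, sup_le_iff]
        constructor
        · intro x hx
          rw [MonoidHom.mem_ker] at hx
          rw [MonoidHom.mem_ker, MonoidHom.comp_apply]
          apply hkill i (Or.inl rfl)
          simp only [hΦ]
          rw [lift_mm, hx, map_one]
        · intro x hx
          rw [MonoidHom.mem_ker] at hx
          rw [MonoidHom.mem_ker, MonoidHom.comp_apply]
          apply hkill j (Or.inr rfl)
          simp only [hΦ]
          rw [lift_mm, hx, map_one]
      obtain ⟨t, ht⟩ := exists_factor L _ hLs h1
      let s : FreeGroup (Fin (T.k + 1)) →* (Fg (T.g + 3) ⧸ M) := FreeGroup.lift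
        (fun a : Fin (T.k + 1) => Fin.lastCases
          (QuotientGroup.mk' M (FreeGroup.of (Fin.natAdd T.g r, false)))
          (fun b : Fin T.k => t (FreeGroup.of b)) a)
      have hsm : ∀ x, s (FreeGroup.map Fin.castSucc x) = t x := by
        intro x
        have : s.comp (FreeGroup.map Fin.castSucc) = t := by
          apply FreeGroup.ext_hom
          intro a
          simp only [MonoidHom.comp_apply, FreeGroup.map.of, s, FreeGroup.lift_apply_of,
            Fin.lastCases_castSucc]
        have := DFunLike.congr_fun this x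
        simpa using this
      have hsl : s (FreeGroup.of (Fin.last T.k)) =
          QuotientGroup.mk' M (FreeGroup.of (Fin.natAdd T.g r, false)) := by
        simp only [s, FreeGroup.lift_apply_of, Fin.lastCases_last]
      have hs : s.comp Λ = QuotientGroup.mk' M := by
        apply FreeGroup.ext_hom
        rintro ⟨a, b⟩
        rw [MonoidHom.comp_apply]
        refine Fin.addCases (fun c => ?_) (fun u => ?_) a
        · rw [hΛo, hsm, ht, MonoidHom.comp_apply, mm_of]
        · rw [hΛn]
          by_cases hu : b = false ∧ u = r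
          · rw [if_pos hu, hsl, hu.1, hu.2]
          · rw [if_neg hu, map_one]
            symm
            rcases fin3_cases hij hir hjr u with h | h | h
            · -- `u = i`
              subst h
              cases b
              · apply hkill u (Or.inl rfl)
                simp only [hΦ]
                rw [lift_stab_new, if_pos (by simp)]
              · apply hkill j (Or.inr rfl)
                simp only [hΦ]
                rw [lift_stab_new, if_pos (by simp [hij])]
            · subst h
              cases b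
              · apply hkill u (Or.inr rfl)
                simp only [hΦ]
                rw [lift_stab_new, if_pos (by simp)]
              · apply hkill i (Or.inl rfl)
                simp only [hΦ]
                rw [lift_stab_new, if_pos (by simp [hij.symm])]
            · subst h
              cases b
              · exact absurd ⟨rfl, rfl⟩ hu
              · apply hkill i (Or.inl rfl)
                simp only [hΦ]
                rw [lift_stab_new, if_pos (by simp [hir.symm])]
      intro x hx
      rw [MonoidHom.mem_ker] at hx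
      have : QuotientGroup.mk' M x = 1 := by
        rw [← hs, MonoidHom.comp_apply, hx, map_one]
      rwa [← MonoidHom.mem_ker, QuotientGroup.ker_mk'] at this
    · rw [sup_le_iff]
      constructor
      · exact hle i hir (by rw [hLk]; exact le_sup_left)
      · exact hle j hjr (by rw [hLk]; exact le_sup_right)

theorem stab_sector (i j : Fin 3) (hij : i ≠ j) :
    PairFree (T.k + 1) (T.stabMap i) (T.stabMap j) := by
  obtain ⟨r, hir, hjr⟩ : ∃ r : Fin 3, i ≠ r ∧ j ≠ r := by
    revert i j
    decide
  obtain ⟨Λ, hs, hk, -⟩ := T.stab_pair i j r hij hir hjr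
  exact ⟨Λ, hs, hk⟩

end Trisection

end Pool.Agent.Y524E
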